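import Pool.Agent.V11113.MC.Oc
import Pool.Agent.V11113.CT.Traj
import Pool.Agent.V11251.DS.ArbI

set_option autoImplicit false

/-! Values of linear forms whose constants are least residues modulo `m` of a family with small exponential sums. -/

namespace Pool.Agent.V11113.MC

open Finset Filter
open Pool.Agent.W93.AU (Law)
open Pool.Agent.V11251.DS
open Pool.Agent.V11113.MR (law_res)

lemma atoms (δ : ℝ) (hδ : 0 < δ) (U : ℕ) : ∃ k₀ : ℕ, 1 ≤ k₀ ∧ ∀ k : ℕ, k₀ ≤ k → ∀ m : ℕ, 2 ^ k ≤ m →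
    1 / (m : ℝ) + (m : ℝ) ^ (-δ) ≤ 1 / (k : ℝ) ^ U := by
  have h2δ : (1 : ℝ) < 2 ^ δ := Real.one_lt_rpow (by norm_num) hδ
  have hev1 : ∀ᶠ k : ℕ in atTop, (k : ℝ) ^ U / ((2 : ℝ) ^ δ) ^ k ≤ 1 / 2 :=
    (tendsto_pow_const_div_const_pow_of_one_lt U h2δ).eventually (eventually_le_nhds (by norm_num))
  have hev2 : ∀ᶠ k : ℕ in atTop, (k : ℝ) ^ U / (2 : ℝ) ^ k ≤ 1 / 2 :=
    (tendsto_pow_const_div_const_pow_of_one_lt U (by norm_num : (1 : ℝ) < 2)).eventually (eventually_le_nhds (by norm_num))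
  obtain ⟨k1, h1⟩ := eventually_atTop.mp hev1
  obtain ⟨k2, h2⟩ := eventually_atTop.mp hev2
  refine ⟨k1 + k2 + 1, by omega, fun k hk m hm => ?_⟩
  have hk0 : (0 : ℝ) < k := by exact_mod_cast (by omega : 0 < k)
  have hmr : (2 : ℝ) ^ k ≤ m := by exact_mod_cast hm
  have hm0 : (0 : ℝ) < m := lt_of_lt_of_le (by positivity) hmr
  have e1 : 1 / (m : ℝ) ≤ 1 / (2 : ℝ) ^ k := one_div_le_one_div_of_le (by positivity) hmr
  have e2 : (m : ℝ) ^ (-δ) ≤ 1 / ((2 : ℝ) ^ δ) ^ k := by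
    rw [Real.rpow_neg hm0.le, ← one_div]
    apply one_div_le_one_div_of_le (by positivity)
    calc ((2 : ℝ) ^ δ) ^ k = ((2 : ℝ) ^ k) ^ δ := by
          rw [← Real.rpow_natCast, ← Real.rpow_natCast, ← Real.rpow_mul (by norm_num), ← Real.rpow_mul (by norm_num), mul_comm]
      _ ≤ (m : ℝ) ^ δ := Real.rpow_le_rpow (by positivity) hmr hδ.le
  have g1 := h1 k (by omega)
  have g2 := h2 k (by omega)
  have hP : 0 < ((2 : ℝ) ^ δ) ^ k := by positivity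
  have hQ : (0 : ℝ) < (2 : ℝ) ^ k := by positivity
  have hR : (0 : ℝ) < (k : ℝ) ^ U := by positivity
  rw [div_le_iff₀ hP] at g1
  rw [div_le_iff₀ hQ] at g2
  have f1 : 1 / ((2 : ℝ) ^ δ) ^ k ≤ 1 / 2 * (1 / (k : ℝ) ^ U) := by
    rw [div_le_iff₀ hP]
    have : 1 / 2 * (1 / (k : ℝ) ^ U) * ((2 : ℝ) ^ δ) ^ k = (1 / 2 * ((2 : ℝ) ^ δ) ^ k) / (k : ℝ) ^ U := by ring
    rw [this, le_div_iff₀ hR, one_mul]
    exact g1
  have f2 : 1 / (2 : ℝ) ^ k ≤ 1 / 2 * (1 / (k : ℝ) ^ U) := by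
    rw [div_le_iff₀ hQ]
    have : 1 / 2 * (1 / (k : ℝ) ^ U) * (2 : ℝ) ^ k = (1 / 2 * (2 : ℝ) ^ k) / (k : ℝ) ^ U := by ring
    rw [this, le_div_iff₀ hR, one_mul]
    exact g2
  linarith

lemma law_mul {b F D V K : ℕ} {ι : Type} {Ω : Finset ι} {p : ι → ℝ} {Y : ι → ℤ} (κ : ℕ) (h : Law b F D V K Ω p Y) :
    Law b (F * κ) D V K Ω p (fun ω => (κ : ℤ) * Y ω) := by
  refine ⟨h.nonneg, h.le_one, fun t ht => ?_⟩
  have h1 := h.char (κ * t) (by rwa [← mul_assoc])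
  refine le_of_eq_of_le ?_ h1
  congr 1
  apply sum_congr rfl
  intro ω _
  congr 2
  push_cast
  ring

/-- the one form estimate for a family of residues -/
theorem res_ml (δ : ℝ) (hδ : 0 < δ) (κ : ℕ) (hκ : 1 ≤ κ) (q : ℤ) (hq : q ≠ 0) (Bc T U : ℕ) : ∃ A B0 : ℕ, ∀ E : ℕ, ∃ N₀ : ℕ,
    ∀ N, N₀ ≤ N → ∀ (m : ℕ) [NeZero m], m ≤ Bc * N → N ≤ Bc * m → ∀ (ι : Type) (s : Finset ι), s.Nonempty →
    ∀ u : ι → ZMod m, (∀ w : ZMod m, w ≠ 0 → ‖∑ i ∈ s, (ZMod.stdAddChar (w * u i) : ℂ)‖ ≤ s.card * (m : ℝ) ^ (-δ)) →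
    ∀ c : ℤ, |c| ≤ Bc * N → ML N A B0 E T U q (s.image fun i => (κ : ℤ) * (c + ((u i).val : ℤ)))
      (fun x => ∑ i ∈ s.filter (fun i => (κ : ℤ) * (c + ((u i).val : ℤ)) = x), 1 / (s.card : ℝ)) := by
  classical
  obtain ⟨e, he⟩ : ∃ e, 2 * ((κ * Bc + q.natAbs) * Bc + κ) ≤ 2 ^ e :=
    ⟨2 * ((κ * Bc + q.natAbs) * Bc + κ), (Nat.lt_pow_self (by omega)).le⟩
  have he1 : 1 ≤ e := by
    by_contra hcon
    have : e = 0 := by omega
    rw [this, pow_zero] at he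
    omega
  obtain ⟨D, K0, hlaw⟩ := law_res ((2 : ℝ) ^ e) δ (by positivity) hδ (4 * (U + 1) + 3 * (T + 1) + 7 + 6)
  obtain ⟨B0, h0⟩ := ml_of_law 2 (1 * κ) le_rfl (by omega) T U D e (2 * Bc) q hq
  obtain ⟨k2, hk21, h2⟩ := atoms δ hδ (U + 1)
  refine ⟨2 ^ e * (2 * Bc), B0 + 1, fun E => ?_⟩
  obtain ⟨k0, h0⟩ := h0 E
  refine ⟨Bc * 2 ^ (k0 + k2 + K0) + 1, fun N hN m _ hm1 hm2 ι s hs u hu c hc => ?_⟩
  have hmR : 2 ^ (k0 + k2 + K0) ≤ m := by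
    by_contra hcon
    have : Bc * m ≤ Bc * 2 ^ (k0 + k2 + K0) := Nat.mul_le_mul_left _ (by omega)
    omega
  have hm0 : 0 < m := Nat.pos_of_ne_zero (NeZero.ne m)
  have hm0r : (0 : ℝ) < m := by exact_mod_cast hm0
  have hsc : (0 : ℝ) < s.card := by exact_mod_cast hs.card_pos
  obtain ⟨k, hk⟩ : ∃ k, k = Nat.log 2 m := ⟨_, rfl⟩
  have hk1 : 2 ^ k ≤ m := by rw [hk]; exact Nat.pow_log_le_self 2 (by omega)
  have hk2 : m < 2 ^ (k + 1) := by rw [hk]; exact Nat.lt_pow_succ_log_self (by norm_num) m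
  have hkR : k0 + k2 + K0 ≤ k := by rw [hk]; exact Nat.le_log_of_pow_le (by norm_num) hmR
  have hk1r : (2 : ℝ) ^ k ≤ m := by exact_mod_cast hk1
  have hk2r : (m : ℝ) ≤ 2 ^ (k + 1) := by exact_mod_cast hk2.le
  have hLw := hlaw (k + e) (by omega) m (by
      rw [pow_add, mul_comm]
      exact mul_le_mul_of_nonneg_left hk1r (by positivity)) (hk2r.trans (pow_le_pow_right₀ (by norm_num) (by omega)))
    ι s hs u hu c
  have hkm : 2 * (2 ^ k) = 2 ^ (k + 1) := by ring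
  exact h0 k (by omega) N (by
      calc 2 ^ k ≤ m := hk1
        _ ≤ Bc * N := hm1
        _ ≤ 2 * Bc * N := Nat.mul_le_mul_right _ (by omega)) (by
      calc N ≤ Bc * m := hm2
        _ ≤ Bc * (2 * 2 ^ k) := Nat.mul_le_mul_left _ (by omega)
        _ = 2 * Bc * 2 ^ k := by ring) ι s (fun _ => 1 / (s.card : ℝ)) (fun i => (κ : ℤ) * (c + ((u i).val : ℤ))) (by
      intro i _
      have hu1 : ((u i).val : ℤ) ≤ m := by exact_mod_cast (ZMod.val_lt (u i)).le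
      have hu0 : (0 : ℤ) ≤ ((u i).val : ℤ) := by positivity
      have hqa : |q| = (q.natAbs : ℤ) := Int.abs_eq_natAbs q
      have hNm : (N : ℤ) ≤ Bc * m := by exact_mod_cast hm2
      have hBc0 : (0 : ℤ) ≤ Bc := by positivity
      have hq0 : (0 : ℤ) ≤ (q.natAbs : ℤ) := by positivity
      have hκ0 : (0 : ℤ) ≤ κ := by positivity
      have h5 : |(κ : ℤ) * (c + ((u i).val : ℤ))| + |q| * N ≤ ((κ * Bc + q.natAbs) * Bc + κ) * (m : ℤ) := by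
        calc |(κ : ℤ) * (c + ((u i).val : ℤ))| + |q| * N ≤ κ * (|c| + |((u i).val : ℤ)|) + |q| * N := by
              rw [abs_mul, abs_of_nonneg hκ0]
              have := mul_le_mul_of_nonneg_left (abs_add_le c ((u i).val : ℤ)) hκ0
              linarith
          _ ≤ κ * (Bc * N + m) + q.natAbs * N := by
              rw [abs_of_nonneg hu0, hqa]
              have := mul_le_mul_of_nonneg_left (add_le_add hc hu1) hκ0
              linarith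
          _ = (κ * Bc + q.natAbs) * N + κ * m := by ring
          _ ≤ (κ * Bc + q.natAbs) * (Bc * m) + κ * m := by
              have := mul_le_mul_of_nonneg_left hNm (by positivity : (0 : ℤ) ≤ κ * Bc + q.natAbs)
              linarith
          _ = _ := by ring
      refine h5.trans ?_
      have h6 : ((κ * Bc + q.natAbs) * Bc + κ) * m ≤ 2 ^ (k + e) := by
        calc ((κ * Bc + q.natAbs) * Bc + κ) * m ≤ ((κ * Bc + q.natAbs) * Bc + κ) * (2 * 2 ^ k) :=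
              Nat.mul_le_mul_left _ (by omega)
          _ = (2 * ((κ * Bc + q.natAbs) * Bc + κ)) * 2 ^ k := by ring
          _ ≤ 2 ^ e * 2 ^ k := Nat.mul_le_mul_right _ he
          _ = 2 ^ (k + e) := by rw [pow_add]; ring
      exact_mod_cast h6) (law_mul κ hLw) (by
      rw [sum_const, nsmul_eq_mul, mul_one_div, div_self hsc.ne']) (by
      intro x
      rw [sum_const, nsmul_eq_mul]
      have h7 : ((s.filter (fun i => (κ : ℤ) * (c + ((u i).val : ℤ)) = x)).card : ℝ) ≤ s.card * (1 / m + (m : ℝ) ^ (-δ)) := by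
        refine le_trans ?_ (Pool.Agent.V11113.CT.mult m s u δ hu ((x / κ - c : ℤ) : ZMod m))
        apply Nat.cast_le.2
        apply card_le_card
        intro i hi
        rw [mem_filter] at hi ⊢
        refine ⟨hi.1, ?_⟩
        have h8 : x / κ = c + ((u i).val : ℤ) := by
          rw [← hi.2, Int.mul_ediv_cancel_left _ (by exact_mod_cast (by omega : κ ≠ 0))]
        have h6 : x / κ - c = ((u i).val : ℤ) := by omega
        rw [h6, Int.cast_natCast, ZMod.natCast_zmod_val]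
      calc ((s.filter (fun i => (κ : ℤ) * (c + ((u i).val : ℤ)) = x)).card : ℝ) * (1 / (s.card : ℝ))
          ≤ (s.card * (1 / m + (m : ℝ) ^ (-δ))) * (1 / (s.card : ℝ)) := mul_le_mul_of_nonneg_right h7 (by positivity)
        _ = 1 / m + (m : ℝ) ^ (-δ) := by field_simp
        _ ≤ _ := h2 k (by omega) m hk1)

open Classical in
/-- the exceptional vectors of an arbitrary kind -/
theorem res_gen (r : ℕ) (δ : ℝ) (hδ : 0 < δ) (κ : Fin r → ℕ) (hκ : ∀ i, 1 ≤ κ i) (q : Fin r → ℤ) (hq : ∀ i, q i ≠ 0)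
    (B T U V' : ℕ) :
    ∃ A B0 : Fin r → ℕ, ∀ E : ℕ, ∃ N₀ : ℕ, ∀ N, N₀ ≤ N → ∀ (m : Fin r → ℕ) [∀ i, NeZero (m i)],
    (∀ i, m i ≤ B * N ∧ N ≤ B * m i) → ∀ (ι : Fin r → Type) (s : ∀ i, Finset (ι i)) (u : ∀ i, ι i → ZMod (m i)),
    (∀ i, ∀ w : ZMod (m i), w ≠ 0 → ‖∑ x ∈ s i, (ZMod.stdAddChar (w * u i x) : ℂ)‖ ≤ (s i).card * ((m i : ℕ) : ℝ) ^ (-δ)) →
    ∀ c : Fin r → ℤ, (∀ i, |c i| ≤ B * N) → ∀ Bad : (Fin r → ℤ) → Prop,
    (∀ (Ω : Fin r → Finset ℤ) (p : Fin r → ℤ → ℝ), (∀ i, ML N (A i) (B0 i) E T V' (q i) (Ω i) (p i)) →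
      ∑ m ∈ Fintype.piFinset Ω, (if Bad m then ∏ i, p i (m i) else 0) ≤ 1 / Real.log N ^ U) →
    (((Fintype.piFinset s).filter fun x => Bad (fun i => (κ i : ℤ) * (c i + ((u i (x i)).val : ℤ)))).card : ℝ) ≤
      ((Fintype.piFinset s).card : ℝ) / Real.log N ^ U := by
  choose A B0 h1 using fun i => res_ml δ hδ (κ i) (hκ i) (q i) (hq i) B T V'
  refine ⟨A, B0, fun E => ?_⟩
  choose N2 hN2 using fun i => h1 i E
  obtain ⟨Nt, hNt⟩ : ∃ Nt, Nt = ∑ i, N2 i := ⟨_, rfl⟩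
  have hNi : ∀ i, N2 i ≤ Nt := fun i => by rw [hNt]; exact single_le_sum (fun _ _ => Nat.zero_le _) (mem_univ i)
  refine ⟨Nt + 3, fun N hN m _ hm ι s u hu c hc Bad h2 => ?_⟩
  by_cases hne : ∀ i, (s i).Nonempty
  swap
  · push Not at hne
    obtain ⟨i, hi⟩ := hne
    have h0 : Fintype.piFinset s = ∅ := by
      apply eq_empty_of_forall_notMem
      intro x hx
      have := Fintype.mem_piFinset.1 hx i
      rw [hi] at this
      exact notMem_empty _ this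
    rw [h0]
    simp
  have hml := fun i => hN2 i N (by have := hNi i; omega) (m i) (hm i).1 (hm i).2 (ι i) (s i) (hne i) (u i) (hu i) (c i) (hc i)
  have h3 := h2 _ _ hml
  have h4 := pushZ ι s (fun i _ => 1 / ((s i).card : ℝ)) (fun i x => (κ i : ℤ) * (c i + ((u i x).val : ℤ))) Bad
  have hlog : 0 < Real.log N := Real.log_pos (by exact_mod_cast (by omega : 1 < N))
  have hprod : ∏ i, (1 / ((s i).card : ℝ)) = 1 / ((Fintype.piFinset s).card : ℝ) := by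
    rw [Fintype.card_piFinset, Nat.cast_prod, prod_div_distrib]
    simp
  have hP0 : (0 : ℝ) < ((Fintype.piFinset s).card : ℝ) := by
    rw [Fintype.card_piFinset, Nat.cast_prod]
    exact prod_pos fun i _ => by exact_mod_cast (hne i).card_pos
  have h5 : ∑ x ∈ Fintype.piFinset s, (if Bad (fun i => (κ i : ℤ) * (c i + ((u i (x i)).val : ℤ))) then ∏ i, (1 / ((s i).card : ℝ)) else 0) =
      (((Fintype.piFinset s).filter fun x => Bad (fun i => (κ i : ℤ) * (c i + ((u i (x i)).val : ℤ)))).card : ℝ) / (Fintype.piFinset s).card := by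
    rw [← sum_filter, sum_const, nsmul_eq_mul, hprod, mul_one_div]
  rw [h4, h5, div_le_iff₀ hP0] at h3
  refine h3.trans (le_of_eq ?_)
  ring

open Classical in
/-- arbitrary weights -/
theorem arb_res (r : ℕ) (δ : ℝ) (hδ : 0 < δ) (κ : Fin r → ℕ) (hκ : ∀ i, 1 ≤ κ i) (q : Fin r → ℤ) (hq : ∀ i, q i ≠ 0)
    (B T U : ℕ) :
    ∃ E₀ : ℕ, ∀ E : ℕ, E₀ ≤ E → ∃ N₀ : ℕ, ∀ N, N₀ ≤ N → ∀ (m : Fin r → ℕ) [∀ i, NeZero (m i)],
    (∀ i, m i ≤ B * N ∧ N ≤ B * m i) → ∀ (ι : Fin r → Type) (s : ∀ i, Finset (ι i)) (u : ∀ i, ι i → ZMod (m i)),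
    (∀ i, ∀ w : ZMod (m i), w ≠ 0 → ‖∑ x ∈ s i, (ZMod.stdAddChar (w * u i x) : ℂ)‖ ≤ (s i).card * ((m i : ℕ) : ℝ) ^ (-δ)) →
    ∀ c : Fin r → ℤ, (∀ i, |c i| ≤ B * N) →
    ∀ z : ℕ, Real.log N ^ E ≤ z → (z : ℝ) ≤ Real.log N ^ (E + 1) →
    ∀ L : ℕ, (L : ℝ) ≤ Real.log N ^ T → ∀ W : ℕ → ℕ → ℝ, (∀ l < L, ∀ n ∈ Icc 1 N, |W l n| ≤ Real.log N ^ T) →
    (((Fintype.piFinset s).filter fun x => BC N z U L W q (fun i => (κ i : ℤ) * (c i + ((u i (x i)).val : ℤ)))).card : ℝ) ≤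
      ((Fintype.piFinset s).card : ℝ) / Real.log N ^ U := by
  obtain ⟨A, B0, h⟩ := res_gen r δ hδ κ hκ q hq B (2 * r + 1 + T) U (U + T + 3)
  obtain ⟨E₀, hE₀⟩ : ∃ E₀, E₀ = ∑ i, B0 i := ⟨_, rfl⟩
  refine ⟨E₀, fun E hE => ?_⟩
  obtain ⟨n1, h1⟩ := h (E + 1)
  obtain ⟨n2, h2⟩ := arb_cnt r T U q hq A B0 E (fun i => by
    have := single_le_sum (f := B0) (fun _ _ => Nat.zero_le _) (mem_univ i)
    omega)
  refine ⟨n1 + n2 + 3, fun N hN m _ hm ι s u hu c hc z hz1 hz2 L hL W hW => ?_⟩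
  have hlog := log_one (by omega : 3 ≤ N)
  refine h1 N (by omega) m hm ι s u hu c hc (fun m => BC N z U L W q m) (fun Ω p hml => ?_)
  refine (h2 N (by omega) z hz1 hz2 Ω p hml L hL W hW).trans ?_
  apply one_div_le_one_div_of_le (by positivity)
  exact pow_le_pow_right₀ hlog (by omega)

open Classical in
/-- arbitrary sets with any index set -/
theorem idx_res (r : ℕ) (δ : ℝ) (hδ : 0 < δ) (κ : Fin r → ℕ) (hκ : ∀ i, 1 ≤ κ i) (q : Fin r → ℤ) (hq : ∀ i, q i ≠ 0)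
    (B T U : ℕ) :
    ∃ E₀ : ℕ, ∀ E : ℕ, E₀ ≤ E → ∃ N₀ : ℕ, ∀ N, N₀ ≤ N → ∀ (m : Fin r → ℕ) [∀ i, NeZero (m i)],
    (∀ i, m i ≤ B * N ∧ N ≤ B * m i) → ∀ (ι : Fin r → Type) (s : ∀ i, Finset (ι i)) (u : ∀ i, ι i → ZMod (m i)),
    (∀ i, ∀ w : ZMod (m i), w ≠ 0 → ‖∑ x ∈ s i, (ZMod.stdAddChar (w * u i x) : ℂ)‖ ≤ (s i).card * ((m i : ℕ) : ℝ) ^ (-δ)) →
    ∀ c : Fin r → ℤ, (∀ i, |c i| ≤ B * N) →
    ∀ z : ℕ, Real.log N ^ E ≤ z → (z : ℝ) ≤ Real.log N ^ (E + 1) →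
    ∀ (J : Type) (I : Finset J), (I.card : ℝ) ≤ Real.log N ^ T → ∀ A : J → Set ℕ, ∀ G : (∀ i, ι i) → Prop,
    (∀ x, (∀ D ∈ I, ∀ X ≤ N, DC X z (ind (A D)) q (fun i => (κ i : ℤ) * (c i + ((u i (x i)).val : ℤ))) ≤
      N / Real.log N ^ U) → G x) →
    ∀ [DecidablePred fun x => ¬ G x], (((Fintype.piFinset s).filter fun x => ¬ G x).card : ℝ) ≤
      ((Fintype.piFinset s).card : ℝ) / Real.log N ^ U := by
  obtain ⟨E₀, h⟩ := arb_res r δ hδ κ hκ q hq B T U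
  refine ⟨E₀, fun E hE => ?_⟩
  obtain ⟨N₀, h1⟩ := h E hE
  refine ⟨N₀ + 3, fun N hN m _ hm ι s u hu c hc z hz1 hz2 J I hI A G hG _ => ?_⟩
  have hlog := log_one (by omega : 3 ≤ N)
  refine le_trans (Nat.cast_le.2 (card_le_card ?_)) (h1 N (by omega) m hm ι s u hu c hc z hz1 hz2 I.card hI
    (fun l => ind (seqSets I A l)) (fun l _ n _ => (ind_le _ _).trans (one_le_pow₀ hlog)))
  intro x hx
  rw [mem_filter] at hx ⊢
  refine ⟨hx.1, ?_⟩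
  by_contra hcon
  refine hx.2 (hG x fun D hD X hX => ?_)
  obtain ⟨l, hl, e⟩ := seqSets_eq I A D hD
  rw [← e]
  exact good_set N z U I.card (seqSets I A) q _ hcon l hl X hX

end Pool.Agent.V11113.MC
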