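import Pool.Agent.V11113.MC.Ml
import Pool.Agent.V11251.DS.Fam
import Pool.Agent.V11251.DS.HLdef

set_option autoImplicit false

/-! Prime tuples whose shifts are least residues modulo `m` of a family with small exponential sums. -/

namespace Pool.Agent.V11113.MC

open Finset Filter
open Pool.Agent.W93.AU (Law)
open Pool.Agent.W93.TD (HLs)
open Pool.Agent.V11251.DS
open Pool.Agent.V11113.MR (law_res)

/-- the one shift estimate for a family of residues -/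
theorem res_osl (δ : ℝ) (hδ : 0 < δ) (Bc U : ℕ) : ∃ A B0 : ℕ, ∀ E : ℕ, ∃ N₀ : ℕ,
    ∀ N, N₀ ≤ N → ∀ (m : ℕ) [NeZero m], m ≤ Bc * N → N ≤ Bc * m → ∀ (ι : Type) (s : Finset ι), s.Nonempty →
    ∀ u : ι → ZMod m, (∀ w : ZMod m, w ≠ 0 → ‖∑ i ∈ s, (ZMod.stdAddChar (w * u i) : ℂ)‖ ≤ s.card * (m : ℝ) ^ (-δ)) →
    ∀ c : ℕ, c ≤ Bc * N → OSL N A B0 E U 1 c (s.image fun i => (u i).val)
      (fun x => ∑ i ∈ s.filter (fun i => (u i).val = x), 1 / (s.card : ℝ)) := by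
  classical
  obtain ⟨e, he⟩ : ∃ e, (2 * Bc + 1) * (2 * Bc) + 2 * 1 ≤ 2 ^ e :=
    ⟨(2 * Bc + 1) * (2 * Bc) + 2 * 1, (Nat.lt_pow_self (by omega)).le⟩
  obtain ⟨D, K0, hlaw⟩ := law_res ((2 : ℝ) ^ (e + 1)) δ (by positivity) hδ (2 * (U + 1) + 6)
  obtain ⟨B0, h0⟩ := osl_of_law 2 1 le_rfl le_rfl U D e 1 (2 * Bc) he
  obtain ⟨k2, hk21, h2⟩ := atoms δ hδ (U + 1)
  refine ⟨2 ^ (e + 1) * (2 * Bc), B0 + 1, fun E => ?_⟩
  obtain ⟨k0, h0⟩ := h0 E
  refine ⟨Bc * 2 ^ (k0 + k2 + K0) + 1, fun N hN m _ hm1 hm2 ι s hs u hu c hc => ?_⟩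
  have hmR : 2 ^ (k0 + k2 + K0) ≤ m := by
    by_contra hcon
    have : Bc * m ≤ Bc * 2 ^ (k0 + k2 + K0) := Nat.mul_le_mul_left _ (by omega)
    omega
  have hm0 : 0 < m := Nat.pos_of_ne_zero (NeZero.ne m)
  have hm0r : (0 : ℝ) < m := by exact_mod_cast hm0
  have hsc : (0 : ℝ) < s.card := by exact_mod_cast hs.card_pos
  obtain ⟨k, hk⟩ : ∃ k, k = Nat.log 2 m := ⟨_, rfl⟩
  have hk1 : 2 ^ k ≤ m := by rw [hk]; exact Nat.pow_log_le_self 2 (by omega)
  have hk2 : m < 2 ^ (k + 1) := by rw [hk]; exact Nat.lt_pow_succ_log_self (by norm_num) m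
  have hkR : k0 + k2 + K0 ≤ k := by rw [hk]; exact Nat.le_log_of_pow_le (by norm_num) hmR
  have hk1r : (2 : ℝ) ^ k ≤ m := by exact_mod_cast hk1
  have hk2r : (m : ℝ) ≤ 2 ^ (k + 1) := by exact_mod_cast hk2.le
  have hLw := hlaw (k + (e + 1)) (by omega) m (by
      rw [pow_add, mul_comm]
      exact mul_le_mul_of_nonneg_left hk1r (by positivity)) (hk2r.trans (pow_le_pow_right₀ (by norm_num) (by omega)))
    ι s hs u hu c
  have hkm : 2 * (2 ^ k) = 2 ^ (k + 1) := by ring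
  have hLw2 : Law 2 1 D (2 * (U + 1) + 6) (k + (e + 1)) s (fun _ => 1 / (s.card : ℝ))
      (fun i => (c : ℤ) + ((1 : ℕ) : ℤ) * (((u i).val : ℕ) : ℤ)) := by
    simpa only [Nat.cast_one, one_mul] using hLw
  exact h0 k (by omega) N (by
      calc 2 ^ k ≤ m := hk1
        _ ≤ Bc * N := hm1
        _ ≤ 2 * Bc * N := Nat.mul_le_mul_right _ (by omega)) (by
      calc N ≤ Bc * m := hm2
        _ ≤ Bc * (2 * 2 ^ k) := Nat.mul_le_mul_left _ (by omega)
        _ = 2 * Bc * 2 ^ k := by ring) c (hc.trans (Nat.mul_le_mul_right _ (by omega))) ι s (fun _ => 1 / (s.card : ℝ))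
    (fun i => (u i).val) (fun i _ => by
      have := ZMod.val_lt (u i)
      have h3 : 0 < 2 ^ k := by positivity
      omega) hLw2 (by
      rw [sum_const, nsmul_eq_mul, mul_one_div, div_self hsc.ne']) (by
      intro x
      rw [sum_const, nsmul_eq_mul]
      have h7 : ((s.filter (fun i => (u i).val = x)).card : ℝ) ≤ s.card * (1 / m + (m : ℝ) ^ (-δ)) := by
        refine le_trans ?_ (Pool.Agent.V11113.CT.mult m s u δ hu ((x : ℕ) : ZMod m))
        apply Nat.cast_le.2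
        apply card_le_card
        intro i hi
        rw [mem_filter] at hi ⊢
        refine ⟨hi.1, ?_⟩
        rw [← hi.2, ZMod.natCast_zmod_val]
      calc ((s.filter (fun i => (u i).val = x)).card : ℝ) * (1 / (s.card : ℝ))
          ≤ (s.card * (1 / m + (m : ℝ) ^ (-δ))) * (1 / (s.card : ℝ)) := mul_le_mul_of_nonneg_right h7 (by positivity)
        _ = 1 / m + (m : ℝ) ^ (-δ) := by field_simp
        _ ≤ _ := h2 k (by omega) m hk1)

open Classical in
/-- prime tuples with shifts in families of residues -/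
theorem res_tuples (r : ℕ) (hr : 1 ≤ r) (δ : ℝ) (hδ : 0 < δ) (B U : ℕ) (ε : ℝ) (hε : 0 < ε) :
    ∃ N₀ : ℕ, ∀ N, N₀ ≤ N → ∀ (m : Fin r → ℕ) [∀ i, NeZero (m i)],
    (∀ i, m i ≤ B * N ∧ N ≤ B * m i) → ∀ (ι : Fin r → Type) (s : ∀ i, Finset (ι i)) (u : ∀ i, ι i → ZMod (m i)),
    (∀ i, ∀ w : ZMod (m i), w ≠ 0 → ‖∑ x ∈ s i, (ZMod.stdAddChar (w * u i x) : ℂ)‖ ≤ (s i).card * ((m i : ℕ) : ℝ) ^ (-δ)) →
    ∀ c : Fin r → ℕ, (∀ i, c i ≤ B * N) →
    (((Fintype.piFinset s).filter fun x => ¬ HLs ε U N (fun i => c i + 1 * (u i (x i)).val)).card : ℝ) ≤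
      ((Fintype.piFinset s).card : ℝ) / Real.log N ^ U := by
  choose A B0 h1 using fun _ : Fin r => res_osl δ hδ B (2 * U + 6 + r + 2)
  obtain ⟨E, N1, h2⟩ := os_prob r hr (fun _ => 1) (fun _ => le_rfl) A B0 U ε hε
  choose N2 hN2 using fun i => h1 i E
  obtain ⟨Nt, hNt⟩ : ∃ Nt, Nt = ∑ i, N2 i := ⟨_, rfl⟩
  have hNi : ∀ i, N2 i ≤ Nt := fun i => by rw [hNt]; exact single_le_sum (fun _ _ => Nat.zero_le _) (mem_univ i)
  refine ⟨N1 + Nt + 3, fun N hN m _ hm ι s u hu c hc => ?_⟩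
  by_cases hne : ∀ i, (s i).Nonempty
  swap
  · push Not at hne
    obtain ⟨i, hi⟩ := hne
    have h0 : Fintype.piFinset s = ∅ := by
      apply eq_empty_of_forall_notMem
      intro x hx
      have := Fintype.mem_piFinset.1 hx i
      rw [hi] at this
      exact notMem_empty _ this
    rw [h0]
    simp
  have hosl := fun i => hN2 i N (by have := hNi i; omega) (m i) (hm i).1 (hm i).2 (ι i) (s i) (hne i) (u i) (hu i) (c i) (hc i)
  have h3 := h2 N (by omega) c _ _ hosl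
  have h4 := push ι s (fun i _ => 1 / ((s i).card : ℝ)) (fun i x => (u i x).val)
    (fun m => ¬ HLs ε U N (fun i => c i + 1 * m i))
  have hlog := log_one (by omega : 3 ≤ N)
  have hprod : ∏ i, (1 / ((s i).card : ℝ)) = 1 / ((Fintype.piFinset s).card : ℝ) := by
    rw [Fintype.card_piFinset, Nat.cast_prod, prod_div_distrib]
    simp
  have hP0 : (0 : ℝ) < ((Fintype.piFinset s).card : ℝ) := by
    rw [Fintype.card_piFinset, Nat.cast_prod]
    exact prod_pos fun i _ => by exact_mod_cast (hne i).card_pos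
  have h5 : ∑ x ∈ Fintype.piFinset s, (if ¬ HLs ε U N (fun i => c i + 1 * (u i (x i)).val) then
      ∏ i, (1 / ((s i).card : ℝ)) else 0) =
      (((Fintype.piFinset s).filter fun x => ¬ HLs ε U N (fun i => c i + 1 * (u i (x i)).val)).card : ℝ) /
        (Fintype.piFinset s).card := by
    rw [← sum_filter, sum_const, nsmul_eq_mul, hprod, mul_one_div]
  have h6 := h3
  rw [h4, h5, div_le_iff₀ hP0] at h6
  refine h6.trans ?_
  rw [mul_comm, mul_one_div]
  apply div_le_div_of_nonneg_left (Nat.cast_nonneg _) (by positivity)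
  exact pow_le_pow_right₀ hlog (by omega)

end Pool.Agent.V11113.MC
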